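import Pool.Agent.H.MP_da2ee6_an.B

namespace Pool.Agent.H.MP_dbc030_an

open MeasureTheory Set Metric Complex Filter Topology Pool.Agent.H.MP_da2ee6_an
open scoped Real

/-- twice the Cauchy-Riemann operator -/
noncomputable def D (φ : ℂ → ℂ) (w : ℂ) : ℂ := fderiv ℝ φ w 1 + I * fderiv ℝ φ w I

lemma D_cont {φ : ℂ → ℂ} (h : ContDiff ℝ 1 φ) : Continuous (D φ) := by
  have := h.continuous_fderiv one_ne_zero
  unfold D
  fun_prop

lemma D_zero {φ : ℂ → ℂ} {w : ℂ} (h : φ =ᶠ[𝓝 w] 0) : D φ w = 0 := by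
  simp [D, h.fderiv_eq]

lemma D_mul {φ ψ : ℂ → ℂ} (h : ContDiff ℝ 1 φ) (h' : ContDiff ℝ 1 ψ) (w : ℂ) :
    D (fun z => φ z * ψ z) w = φ w * D ψ w + ψ w * D φ w := by
  simp only [D, fderiv_fun_mul (h.differentiable one_ne_zero w) (h'.differentiable one_ne_zero w),
    add_apply, smul_apply, smul_eq_mul]
  ring

lemma cp0 {ψ : ℂ → ℂ} (h : ContDiff ℝ 1 ψ) (hc : HasCompactSupport ψ) :
    ∫ w, D ψ w * w⁻¹ = -(2 * π * ψ 0) := by
  obtain ⟨R, hR⟩ := hc.isCompact.isBounded.subset_ball 0
  have z : ∀ w, R ≤ ‖w‖ → ψ =ᶠ[𝓝 w] 0 := fun w hw => notMem_tsupport_iff_eventuallyEq.1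
    fun q => (mem_ball_zero_iff.1 (hR q)).not_ge hw
  have c := h.continuous_fderiv one_ne_zero
  have d := fun w => (h.differentiable one_ne_zero w).hasFDerivAt
  have i : Integrable fun w => D ψ w * w⁻¹ := by
    refine integrableOn_univ.1 (IntegrableOn.of_forall_sdiff_eq_zero (s := ball 0 R) ?_ .univ
      fun w hw => by rw [D_zero (z w (by simpa using hw.2)), zero_mul])
    have : IntegrableOn (fun w : ℂ => w⁻¹) (ball 0 R) := by simpa using (inv_int 0 R).neg
    exact this.continuousOn_mul_of_subset (D_cont h).continuousOn (isCompact_closedBall 0 R)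
      measurableSet_ball ball_subset_closedBall
  rw [polar_int _ i ((D_cont h).measurable.mul measurable_inv)]
  have cm : Continuous fun p : ℝ × ℝ => fderiv ℝ ψ (circleMap 0 p.1 p.2) (circleMap 0 1 p.2) := by
    unfold circleMap; fun_prop
  have a : ∀ r ∈ Ioi (0 : ℝ), ∫ t in Ioo (-π) π, r • (D ψ (circleMap 0 r t) * (circleMap 0 r t)⁻¹) =
      ∫ t in Ioo (-π) π, fderiv ℝ ψ (circleMap 0 r t) (circleMap 0 1 t) := fun r hr => by
    have r0 : (r : ℂ) ≠ 0 := ofReal_ne_zero.2 (ne_of_gt hr)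
    have cm' : Continuous fun t => fderiv ℝ ψ (circleMap 0 r t) (circleMap 0 r t * I) := by fun_prop
    have e := intervalIntegral.integral_eq_sub_of_hasDerivAt (a := -π) (b := π) (fun t _ =>
      (d _).comp_hasDerivAt t (hasDerivAt_circleMap 0 r t)) (cm'.intervalIntegrable _ _)
    rw [intervalIntegral.integral_of_le (by linarith [Real.pi_pos]), integral_Ioc_eq_integral_Ioo,
      Function.comp_apply, Function.comp_apply, ← periodic_circleMap 0 r (-π),
      show -π + 2 * π = π by ring, sub_self] at e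
    have ii : ∀ {g : ℝ → ℂ}, Continuous g → IntegrableOn g (Ioo (-π) π) := fun hg =>
      hg.integrableOn_Icc.mono_set Ioo_subset_Icc_self
    have e' := integral_add (ii (cm.comp (.prodMk_right r))) ((ii cm').const_mul (I / r))
    rw [integral_const_mul, e, mul_zero, add_zero] at e'
    refine Eq.trans (integral_congr_ae (.of_forall fun t => ?_)) e'
    have e1 : circleMap 0 1 t = Real.cos t • 1 + Real.sin t • I := by simp [circleMap, exp_mul_I]
    have e2 : circleMap 0 r t * I = (r * Real.cos t) • I - (r * Real.sin t) • 1 := by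
      simp only [circleMap, exp_mul_I, real_smul]; push_cast
      linear_combination r * sin t * I_mul_I
    have e3 : (circleMap 0 r t)⁻¹ = (cos t - sin t * I) / r := by
      rw [circleMap, zero_add, mul_inv, ← exp_neg, ← neg_mul, exp_mul_I, cos_neg, sin_neg]; ring
    simp only [Function.comp, e1, e2, e3, map_add, map_sub, map_smul, D]
    simp only [real_smul]
    push_cast
    field_simp
    linear_combination (-fderiv ℝ ψ (circleMap 0 r t) I * sin t) * I_mul_I
  rw [setIntegral_congr_fun measurableSet_Ioi a, integral_integral_swap]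
  · have b : ∀ t, ∫ r in Ioi (0 : ℝ), fderiv ℝ ψ (circleMap 0 r t) (circleMap 0 1 t) = -ψ 0 :=
      fun t => by
        have e : ∀ r : ℝ, circleMap 0 r t = r • circleMap 0 1 t := fun r => by simp [circleMap]
        have := HasCompactSupport.integral_Ioi_deriv_eq (f := fun r : ℝ => ψ (r • circleMap 0 1 t))
          (by fun_prop) (.intro (isCompact_closedBall 0 R) fun r hr => (z _ (by
            simpa [norm_smul] using (lt_of_not_ge (mem_closedBall_zero_iff.not.1 hr)).le)).self_of_nhds) 0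
        rw [zero_smul] at this
        rw [← this]
        refine integral_congr_ae (.of_forall fun r => ?_)
        simpa [← e, Function.comp_def] using ((d _).comp_hasDerivAt r ((hasDerivAt_id r).smul_const
          (circleMap 0 1 t))).deriv.symm
    simp [b, Real.pi_pos.le, two_mul]
  · rw [Measure.prod_restrict]
    refine IntegrableOn.of_forall_sdiff_eq_zero ((cm.continuousOn.integrableOn_compact
      ((isCompact_Icc (a := 0) (b := R)).prod (isCompact_Icc (a := -π) (b := π)))))
      (measurableSet_Ioi.prod measurableSet_Ioo) fun p hp => ?_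
    have : R ≤ p.1 := le_of_not_gt fun q => hp.2 ⟨⟨le_of_lt hp.1.1, q.le⟩, Ioo_subset_Icc_self hp.1.2⟩
    simp [Function.uncurry, (z (circleMap 0 p.1 p.2) (by
      rw [norm_circleMap_zero]; exact this.trans (le_abs_self _))).fderiv_eq]

lemma cp {ψ : ℂ → ℂ} (h : ContDiff ℝ 1 ψ) (hc : HasCompactSupport ψ) (z : ℂ) :
    ∫ w, D ψ w * (z - w)⁻¹ = 2 * π * ψ z := by
  have := cp0 (ψ := fun w => ψ (w + z)) (by fun_prop) (hc.comp_homeomorph (.addRight z))
  rw [zero_add, ← neg_eq_iff_eq_neg, ← integral_neg] at this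
  rw [← this, ← integral_add_right_eq_self _ z]
  simp [D, fderiv_comp_add_right]

lemma part : ∃ C, 0 ≤ C ∧ ∀ δ > 0, ∀ R : ℝ, ∃ (J : Finset (ℕ × ℕ)) (χ : ℕ × ℕ → ℂ → ℂ)
    (c : ℕ × ℕ → ℂ), (∀ j, ContDiff ℝ 1 (χ j)) ∧ (∀ w, ‖w‖ < R → ∑ j ∈ J, χ j w = 1) ∧
    (∀ j w, χ j w ≠ 0 → w ∈ closedBall (c j) (2 * δ)) ∧ (∀ j w, ‖χ j w‖ ≤ C ∧ ‖D (χ j) w‖ ≤ C / δ) ∧
    ∀ w, (J.filter fun j => dist w (c j) < 3 * δ).card ≤ 49 := by
  let h : ℝ → ℝ := fun x => Real.smoothTransition (x + 1) - Real.smoothTransition x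
  have h1 : ContDiff ℝ 1 h := (Real.smoothTransition.contDiff.comp (by fun_prop)).sub
    Real.smoothTransition.contDiff
  have h0 : ∀ x, h x ≠ 0 → |x| ≤ 1 := fun x hx => by
    by_contra q
    rcases lt_abs.1 (not_le.1 q) with q | q
    · exact hx (by simp only [h]; rw [Real.smoothTransition.one_of_one_le (by linarith),
        Real.smoothTransition.one_of_one_le q.le, sub_self])
    · exact hx (by simp only [h]; rw [Real.smoothTransition.zero_of_nonpos (by linarith),
        Real.smoothTransition.zero_of_nonpos (by linarith), sub_self])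
  let H : ℂ → ℂ := fun w => (h w.re * h w.im : ℝ)
  have H1 : ContDiff ℝ 1 H := ofRealCLM.contDiff.comp ((h1.comp reCLM.contDiff).mul
    (h1.comp imCLM.contDiff))
  have H0 : ∀ w, H w ≠ 0 → ‖w‖ ≤ 2 := fun w hw => by
    have := ofReal_ne_zero.1 hw
    linarith [norm_le_abs_re_add_abs_im w, h0 _ (left_ne_zero_of_mul this),
      h0 _ (right_ne_zero_of_mul this)]
  have Hc : HasCompactSupport H := .intro (isCompact_closedBall 0 2) fun w hw =>
    by_contra fun q => hw (mem_closedBall_zero_iff.2 (H0 w q))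
  obtain ⟨C, hC⟩ := H1.continuous.bounded_above_of_compact_support Hc
  obtain ⟨C', hC'⟩ := (D_cont H1).bounded_above_of_compact_support (.intro Hc.isCompact fun w hw =>
    D_zero (notMem_tsupport_iff_eventuallyEq.1 hw))
  refine ⟨max C C', le_max_of_le_left ((norm_nonneg _).trans (hC 0)), fun δ δ0 R => ?_⟩
  obtain ⟨M, hM⟩ := exists_nat_ge (R / δ)
  have d0 : (δ : ℂ) ≠ 0 := ofReal_ne_zero.2 δ0.ne'
  let c : ℕ × ℕ → ℂ := fun j => δ * ((j.1 - M : ℝ) + (j.2 - M : ℝ) * I)
  have s : ∀ x : ℝ, |x| < R → ∑ k ∈ Finset.range (2 * M + 1), h (δ⁻¹ * (x - δ * (k - M))) = 1 :=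
    fun x hx => by
      have := Finset.sum_range_sub' (fun k : ℕ => Real.smoothTransition (x / δ + M + 1 - k))
        (2 * M + 1)
      have q := abs_le.1 ((abs_div x δ).trans_le ((div_le_div_of_nonneg_right hx.le
        (abs_nonneg _)).trans (show _ ≤ (M : ℝ) by rwa [abs_of_pos δ0])))
      rw [Real.smoothTransition.one_of_one_le (by push_cast; linarith),
        Real.smoothTransition.zero_of_nonpos (by push_cast; linarith), sub_zero] at this
      rw [← this]
      refine Finset.sum_congr rfl fun k _ => ?_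
      simp only [h]
      congr 2 <;> push_cast <;> field_simp <;> ring
  have t : ∀ x : ℝ, ∃ A : Finset ℕ, A.card ≤ 7 ∧ ∀ k : ℕ, |x - δ * (k - M)| < 3 * δ → k ∈ A :=
    fun x => ⟨.Icc (⌊x / δ + M⌋₊ - 3) (⌊x / δ + M⌋₊ + 3), by simp; omega, fun k hk => by
      have q : |x / δ + M - k| < 3 := by
        rw [show x / δ + M - k = (x - δ * (k - M)) / δ by field_simp; ring, abs_div, abs_of_pos δ0]
        exact (div_lt_iff₀ δ0).2 hk
      have q1 : ⌊x / δ + M⌋₊ < k + 3 := (Nat.floor_lt' (by omega)).2 (by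
        push_cast; linarith [(abs_lt.1 q).2])
      have q2 : (k : ℝ) < (⌊x / δ + M⌋₊ + 4 : ℕ) := by
        push_cast; linarith [(abs_lt.1 q).1, Nat.lt_floor_add_one (x / δ + M)]
      have := Nat.cast_lt.1 q2
      simp only [Finset.mem_Icc]
      omega⟩
  refine ⟨.range (2 * M + 1) ×ˢ .range (2 * M + 1), fun j w => H (δ⁻¹ • (w - c j)), c,
    fun j => by fun_prop, fun w hw => ?_, fun j w hw => ?_, fun j w => ⟨(hC _).trans
      (le_max_left _ _), ?_⟩, fun w => ?_⟩
  · simp only [H, Finset.sum_product, ← ofReal_sum, c, smul_re, smul_im, smul_eq_mul, sub_re, sub_im,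
      re_ofReal_mul, im_ofReal_mul, add_re, add_im, ofReal_re, ofReal_im, mul_I_re, mul_I_im,
      neg_zero, add_zero, zero_add, ← Finset.mul_sum,
      s _ ((abs_re_le_norm w).trans_lt hw), s _ ((abs_im_le_norm w).trans_lt hw), mul_one, ofReal_one]
  · have := H0 _ hw
    rwa [norm_smul, norm_inv, Real.norm_of_nonneg δ0.le, inv_mul_le_iff₀ δ0, mul_comm,
      ← mem_closedBall_iff_norm] at this
  · have := ((H1.differentiable one_ne_zero _).hasFDerivAt.comp w
      (((hasFDerivAt_id w).sub_const (c j)).const_smul δ⁻¹)).fderiv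
    rw [show D (fun w => H (δ⁻¹ • (w - c j))) w = δ⁻¹ • D H (δ⁻¹ • (w - c j)) by
      simp only [D]; erw [this]; simp; ring, norm_smul, norm_inv, Real.norm_of_nonneg δ0.le,
      div_eq_inv_mul]
    exact mul_le_mul_of_nonneg_left ((hC' _).trans (le_max_right _ _)) (by positivity)
  · obtain ⟨A, a1, a2⟩ := t w.re
    obtain ⟨B, b1, b2⟩ := t w.im
    refine (Finset.card_le_card (t := A ×ˢ B) fun j hj => ?_).trans (by
      rw [Finset.card_product]; exact Nat.mul_le_mul a1 b1)
    have := (Finset.mem_filter.1 hj).2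
    rw [dist_eq_norm] at this
    exact Finset.mem_product.2 ⟨a2 _ (by simpa [c] using (abs_re_le_norm _).trans_lt this),
      b2 _ (by simpa [c] using (abs_im_le_norm _).trans_lt this)⟩

end Pool.Agent.H.MP_dbc030_an
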