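import Pool.Agent.H.MP_dbc030_an.A

namespace Pool.Agent.H.MP_dbc030_an

open MeasureTheory Set Metric Complex Filter Topology Pool.Agent.H.MP_da2ee6_an
open scoped Real

lemma sumb {α ι : Type*} [MeasurableSpace α] {μ : Measure α} (J : Finset ι) {u : ι → α → ℂ}
    {b : α → ℝ} (s : ι → α → Prop) [∀ x, DecidablePred (s · x)] (hb : Integrable b μ)
    (hu : ∀ j, Integrable (u j) μ) (b0 : ∀ x, 0 ≤ b x)
    (h : ∀ᵐ x ∂μ, ∀ j, (s j x → ‖u j x‖ ≤ b x) ∧ (¬s j x → u j x = 0))
    (hc : ∀ x, (J.filter (s · x)).card ≤ 49) : ‖∑ j ∈ J, ∫ x, u j x ∂μ‖ ≤ 49 * ∫ x, b x ∂μ := by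
  rw [← integral_finsetSum _ fun j _ => hu j, ← integral_const_mul]
  refine norm_integral_le_of_norm_le (hb.const_mul _) (h.mono fun x hx => ?_)
  rw [← Finset.sum_filter_of_ne (p := (s · x)) fun j _ q => by_contra fun e => q ((hx j).2 e)]
  refine (norm_sum_le _ _).trans ((Finset.sum_le_card_nsmul _ _ (b x) fun j hj =>
    (hx j).1 (Finset.mem_filter.1 hj).2).trans ?_)
  rw [nsmul_eq_mul]
  exact mul_le_mul_of_nonneg_right (by exact_mod_cast hc x) (b0 x)

variable {K : Type*} [TopologicalSpace K] [CompactSpace K] [MeasurableSpace K] [BorelSpace K]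
  (μ : Measure K) [IsFiniteMeasure μ] (F β : K → ℂ) (X : Set ℂ)

/-- Cauchy transform -/
noncomputable def m (w : ℂ) : ℂ := ∫ k, β k * (F k - w)⁻¹ ∂μ

/-- localisation functional -/
noncomputable def T (g φ : ℂ → ℂ) : ℂ :=
  ∫ k, 2 * π * β k * (g (F k) * φ (F k)) ∂μ - ∫ w in X, g w * D φ w * m μ F β w

variable {μ F β X}

omit [CompactSpace K] in
lemma fub (hF : Continuous F) (hβ : Continuous β) (b1 : ∀ k, ‖β k‖ ≤ 1) {R : ℝ}
    (hR : ∀ k, ‖F k‖ < R) : Integrable (fun p : K × ℂ => β p.1 * (F p.1 - p.2)⁻¹)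
      (μ.prod (volume.restrict (ball 0 R))) := by
  have hm : Measurable fun p : K × ℂ => (F p.1 - p.2)⁻¹ :=
    ((hF.measurable.comp measurable_fst).sub measurable_snd).inv
  refine Integrable.bdd_mul ?_ (hβ.measurable.comp measurable_fst).aestronglyMeasurable
    (.of_forall fun p => b1 p.1)
  refine (integrable_prod_iff hm.aestronglyMeasurable).2 ⟨.of_forall fun k => inv_int (F k) R, ?_⟩
  refine Integrable.of_bound hm.norm.stronglyMeasurable.integral_prod_right'.aestronglyMeasurable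
    (∫ w in ball (0 : ℂ) (2 * R), ‖w⁻¹‖) (.of_forall fun k => ?_)
  rw [Real.norm_of_nonneg (integral_nonneg fun _ => norm_nonneg _)]
  exact inv_bd (hR k)

theorem core (hF : Continuous F) (hβ : Continuous β) (b1 : ∀ k, ‖β k‖ ≤ 1) (hX : IsCompact X)
    (FX : ∀ k, F k ∈ X) (H : ∀ w ∉ X, m μ F β w = 0) {f f' : ℂ → ℂ} (hf : ContinuousOn f X)
    (hd : ∀ a ∈ X, Tendsto (fun z => (f z - f a) / (z - a)) (𝓝[X \ {a}] a) (𝓝 (f' a))) :
    ∫ k, β k * f (F k) ∂μ = 0 := by
  classical
  obtain ⟨R, hR⟩ := hX.isBounded.subset_ball 0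
  have mX := hX.measurableSet
  have im : IntegrableOn (m μ F β) X := IntegrableOn.mono_set
    (fub hF hβ b1 fun k => mem_ball_zero_iff.1 (hR (FX k))).integral_prod_right hR
  have i1 : ∀ {g φ : ℂ → ℂ}, ContinuousOn g X → ContDiff ℝ 1 φ →
      Integrable (fun k => 2 * π * β k * (g (F k) * φ (F k))) μ := fun {g φ} hg hφ =>
    ((continuous_const.mul hβ).mul ((hg.comp_continuous hF FX).mul (hφ.continuous.comp
      hF))).integrable_of_hasCompactSupport (.of_compactSpace _)
  have i2 : ∀ {g φ : ℂ → ℂ}, ContinuousOn g X → ContDiff ℝ 1 φ →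
      IntegrableOn (fun w => g w * D φ w * m μ F β w) X := fun hg hφ =>
    im.continuousOn_mul (hg.mul (D_cont hφ).continuousOn) hX
  have Ta : ∀ (a b : ℂ) φ, ContDiff ℝ 1 φ → HasCompactSupport φ →
      T μ F β X f φ = T μ F β X (fun z => f z - (a + b * z)) φ := fun a b φ h hc => by
    have h1 : ContDiff ℝ 1 fun z : ℂ => a + b * z := by fun_prop
    have h2 := h1.mul h
    have c2 : HasCompactSupport fun z => (a + b * z) * φ z := hc.mul_left
    obtain ⟨S, hS⟩ := (hX.union c2.isCompact).isBounded.subset_ball 0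
    obtain ⟨B, hB⟩ := (D_cont h2).bounded_above_of_compact_support (.intro c2.isCompact fun w hw =>
      D_zero (notMem_tsupport_iff_eventuallyEq.1 hw))
    have e := integral_integral_swap (f := fun k w => D (fun z => (a + b * z) * φ z) w *
      (β k * (F k - w)⁻¹)) ((fub (μ := μ) hF hβ b1 fun k => mem_ball_zero_iff.1 (hS (.inl (FX k)))).bdd_mul
        ((D_cont h2).measurable.comp measurable_snd).aestronglyMeasurable (.of_forall fun p => hB _))
    have e1 : ∀ k, ∫ w in ball 0 S, D (fun z => (a + b * z) * φ z) w * (β k * (F k - w)⁻¹) =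
        2 * π * β k * ((a + b * F k) * φ (F k)) := fun k => by
      rw [setIntegral_eq_integral_of_forall_compl_eq_zero fun w hw => by
        rw [D_zero (notMem_tsupport_iff_eventuallyEq.1 fun q => hw (hS (.inr q))), zero_mul]]
      simp_rw [mul_left_comm _ (β k)]
      rw [integral_const_mul, cp h2 c2]
      ring
    have e2 : ∀ w, D (fun z => (a + b * z) * φ z) w = (a + b * w) * D φ w := fun w => by
      have : HasFDerivAt (fun z : ℂ => a + b * z) (b • ContinuousLinearMap.id ℝ ℂ) w :=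
        ((hasFDerivAt_id w).const_smul b).const_add a
      rw [D_mul h1 h, D.eq_1 (fun z => a + b * z), this.fderiv]
      simp only [smul_apply, ContinuousLinearMap.id_apply, smul_eq_mul]
      linear_combination (φ w * b) * I_mul_I
    simp only [e1] at e
    simp only [integral_const_mul, e2] at e
    replace e := e.trans (setIntegral_eq_of_subset_of_forall_sdiff_eq_zero measurableSet_ball
      (subset_union_left.trans hS) fun w hw => mul_eq_zero_of_right _ (H w hw.2))
    simp only [T, sub_mul, mul_sub]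
    rw [integral_sub (i1 hf h) (i1 h1.continuous.continuousOn h), integral_sub (i2 hf h)
      (i2 h1.continuous.continuousOn h), e]
    simp only [m]
    ring
  have T0 : ∀ φ, (∀ w ∈ X, φ =ᶠ[𝓝 w] 0) → T μ F β X f φ = 0 := fun φ h => by
    rw [T, setIntegral_eq_zero_of_forall_eq_zero fun w hw => by simp [D_zero (h w hw)]]
    simp [fun k => (h _ (FX k)).self_of_nhds]
  obtain ⟨C, C0, hP⟩ := part
  have Ts : ∀ (J : Finset (ℕ × ℕ)) (χ : ℕ × ℕ → ℂ → ℂ) φ, ContDiff ℝ 1 φ →
      (∀ j, ContDiff ℝ 1 (χ j)) → (∀ w, ‖w‖ < R → ∑ j ∈ J, χ j w = 1) →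
      T μ F β X f φ = ∑ j ∈ J, T μ F β X f fun z => φ z * χ j z := fun J χ φ h h1 h2 => by
    simp only [T, Finset.sum_sub_distrib]
    rw [← integral_finsetSum _ fun j _ => i1 hf (h.mul (h1 j)),
      ← integral_finsetSum _ fun j _ => i2 hf (h.mul (h1 j))]
    congr 1
    · simp only [← Finset.mul_sum, fun k => h2 _ (mem_ball_zero_iff.1 (hR (FX k))), mul_one]
    refine setIntegral_congr_fun mX fun w hw => ?_
    have : φ =ᶠ[𝓝 w] fun z => ∑ j ∈ J, φ z * χ j z :=
      (isOpen_ball.eventually_mem (hR hw)).mono fun z hz => by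
        simp only [← Finset.mul_sum, h2 z (mem_ball_zero_iff.1 hz), mul_one]
    simp only [D, this.fderiv_eq, fderiv_fun_sum fun j (_ : j ∈ J) =>
      (h.mul (h1 j)).differentiable one_ne_zero w]
    simp only [← Finset.sum_mul, ← Finset.mul_sum, sum_apply, Finset.sum_add_distrib]
  have zr : ∀ {χ : ℂ → ℂ} {c : ℂ} {r : ℝ}, (∀ w, χ w ≠ 0 → w ∈ closedBall c r) → ∀ (φ : ℂ → ℂ),
      ∀ w ∉ closedBall c r, (fun z => φ z * χ z) =ᶠ[𝓝 w] 0 := fun h φ w hw =>
    (isClosed_closedBall.isOpen_compl.eventually_mem hw).mono fun z hz =>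
      mul_eq_zero_of_right _ (by_contra fun q => hz (h z q))
  let c := {t : Set ℂ | IsOpen t ∧ ∀ φ, ContDiff ℝ 1 φ → Function.support φ ⊆ t →
    T μ F β X f φ = 0}
  have loc : ∀ φ, ContDiff ℝ 1 φ → tsupport φ ∩ X ⊆ ⋃₀ c → T μ F β X f φ = 0 := fun φ h hs => by
    obtain ⟨δ, δ0, hδ⟩ := lebesgue_number_lemma_of_metric_sUnion
      (hX.inter_left (isClosed_tsupport φ)) (fun t ht => ht.1) hs
    obtain ⟨J, χ, c, h1, h2, h3, -⟩ := hP (δ / 5) (by positivity) R
    rw [Ts J χ φ h h1 h2]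
    refine Finset.sum_eq_zero fun j _ => ?_
    by_cases q : ∃ x ∈ tsupport φ ∩ X, x ∈ closedBall (c j) (2 * (δ / 5))
    · obtain ⟨x, hx, hx'⟩ := q
      obtain ⟨t, ht, ht'⟩ := hδ x hx
      refine ht.2 _ (h.mul (h1 j)) fun w hw => ht' ?_
      have := dist_triangle_right w x (c j)
      have := h3 j w (right_ne_zero_of_mul hw)
      simp only [mem_closedBall, mem_ball] at *
      linarith
    refine T0 _ fun w hw => ?_
    by_cases q' : w ∈ tsupport φ
    · exact zr (h3 j) φ w fun e => q ⟨w, ⟨q', hw⟩, e⟩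
    · exact (notMem_tsupport_iff_eventuallyEq.1 q').mono fun z hz => mul_eq_zero_of_left hz _
  suffices E : ∀ a, a ∈ ⋃₀ c by
    have := loc (fun _ => 1) contDiff_const fun a _ => E a
    simpa [T, D, mul_assoc, integral_const_mul] using this
  by_contra! ne
  have cE : IsClosed (⋃₀ c)ᶜ := (isOpen_sUnion fun t ht => ht.1).isClosed_compl
  have EX : (⋃₀ c)ᶜ ⊆ X := fun a ha => by_contra fun q => by
    obtain ⟨r, r0, hr⟩ := nhds_basis_closedBall.mem_iff.1 (hX.isClosed.isOpen_compl.mem_nhds q)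
    refine ha ⟨ball a r, ⟨isOpen_ball, fun φ _ h => T0 φ fun w hw => ?_⟩, mem_ball_self r0⟩
    simpa using zr (fun z hz => ball_subset_closedBall (h hz)) 1 w fun e => hr e hw
  have df : ∀ a ∈ X, ∀ ε > 0, ∃ k : ℕ, ∀ z ∈ X, dist z a < 1 / (k + 1) →
      ‖f z - (f a - f' a * a + f' a * z)‖ ≤ ε * ‖z - a‖ := fun a ha ε ε0 => by
    obtain ⟨δ, δ0, h⟩ := Metric.tendsto_nhdsWithin_nhds.1 (hd a ha) ε ε0
    obtain ⟨k, hk⟩ := exists_nat_one_div_lt δ0
    refine ⟨k, fun z hz q => ?_⟩
    rcases eq_or_ne z a with rfl | e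
    · simp
    have := h ⟨hz, e⟩ (q.trans hk)
    rw [dist_eq_norm] at this
    rw [show f z - (f a - f' a * a + f' a * z) = ((f z - f a) / (z - a) - f' a) * (z - a) by
      field_simp [sub_ne_zero.2 e]; ring, norm_mul]
    gcongr
  obtain ⟨M, hM⟩ := hX.exists_bound_of_continuousOn hf
  have := cE.completeSpace_coe
  have : Nonempty ((⋃₀ c)ᶜ : Set ℂ) := Set.Nonempty.to_subtype ne
  obtain ⟨n, ⟨a₀, h₀⟩, hn⟩ := nonempty_interior_of_iUnion_of_closed (f := fun n : ℕ =>
    {a : ((⋃₀ c)ᶜ : Set ℂ) | ∀ z ∈ X, ‖f z - f a‖ ≤ n * ‖z - a‖}) (fun n => by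
      have := hf.comp_continuous continuous_subtype_val fun a => EX a.2
      simp only [ofPred_forall]
      exact isClosed_iInter fun z => isClosed_iInter fun _ => isClosed_le
        (continuous_const.sub this).norm (by fun_prop)) (eq_univ_of_forall fun a => by
      obtain ⟨k, hk⟩ := df a (EX a.2) 1 one_pos
      obtain ⟨n, hn⟩ := exists_nat_ge (max (1 + ‖f' a‖) (2 * M * (k + 1)))
      refine mem_iUnion.2 ⟨n, fun z hz => le_trans ?_ (mul_le_mul_of_nonneg_right hn (norm_nonneg _))⟩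
      by_cases q : dist z a < 1 / (k + 1)
      · have := norm_add_le (f z - (f a - f' a * a + f' a * z)) (f' a * (z - a))
        rw [norm_mul, show f z - (f a - f' a * a + f' a * z) + f' a * (z - a) = f z - f a by ring]
          at this
        nlinarith [hk z hz q, le_max_left (1 + ‖f' a‖) (2 * M * (k + 1)), norm_nonneg (z - a)]
      · rw [not_lt, dist_eq_norm, div_le_iff₀ (by positivity)] at q
        nlinarith [norm_sub_le (f z) (f a), hM z hz, hM a (EX a.2), norm_nonneg (f z),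
          le_max_right (1 + ‖f' a‖) (2 * M * (k + 1)), norm_nonneg (z - a)])
  obtain ⟨r, r0, hr⟩ := Metric.mem_nhds_iff.1 (mem_interior_iff_mem_nhds.1 hn)
  refine h₀ ⟨ball a₀ (r / 2), ⟨isOpen_ball, fun φ h hs => ?_⟩, mem_ball_self (half_pos r0)⟩
  have ts : tsupport φ ⊆ ball a₀ r := (closure_minimal (hs.trans ball_subset_closedBall)
    isClosed_closedBall).trans (closedBall_subset_ball (half_lt_self r0))
  obtain ⟨B, hB⟩ := hX.exists_bound_of_continuousOn (h.continuous.prodMk (D_cont h)).continuousOn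
  have B0 : 0 ≤ B := (norm_nonneg _).trans (hB _ (EX h₀))
  simp only [Prod.norm_mk, max_le_iff] at hB
  suffices S : ∀ ε > 0, ‖T μ F β X f φ‖ ≤ 49 * (7 * B * C * (ε * ∫ w in X, ‖m μ F β w‖)) from
    norm_le_zero_iff.1 (ge_of_tendsto (Continuous.tendsto' (f := fun ε : ℝ => 49 * (7 * B * C *
      (ε * ∫ w in X, ‖m μ F β w‖))) (by fun_prop) 0 0 (by simp) |>.mono_left
        (nhdsWithin_le_nhds (s := Ioi 0))) (eventually_mem_nhdsWithin.mono S))
  intro ε ε0
  let G : ℕ → Set ℂ := fun k => {a | ∀ z ∈ X, dist z a < 1 / (k + 1) →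
    ‖f z - (f a - f' a * a + f' a * z)‖ ≤ ε * ‖z - a‖}
  let A : ℕ → Set ℂ := fun k => thickening (1 / (k + 1)) (⋃₀ c)ᶜ \ closure (G k)
  have mA : ∀ k, MeasurableSet (A k) := fun k =>
    isOpen_thickening.measurableSet.diff isClosed_closure.measurableSet
  have l1 := tendsto_setIntegral_of_antitone mA (fun k l q => sdiff_subset_sdiff
    (thickening_mono (Nat.one_div_le_one_div q) _) (closure_mono fun a ha z hz e =>
      ha z hz (e.trans_le (Nat.one_div_le_one_div q)))) ⟨0, im.norm.integrableOn⟩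
  rw [show ⋂ k, A k = ∅ from eq_empty_of_forall_notMem fun w hw => by
    have : w ∈ (⋃₀ c)ᶜ := cE.closure_subset (Metric.mem_closure_iff.2 fun δ δ0 => by
      obtain ⟨k, hk⟩ := exists_nat_one_div_lt δ0
      obtain ⟨z, hz, q⟩ := mem_thickening_iff.1 (mem_iInter.1 hw k).1
      exact ⟨z, hz, q.trans hk⟩)
    obtain ⟨k, hk⟩ := df w (EX this) ε ε0
    exact (mem_iInter.1 hw k).2 (subset_closure hk), setIntegral_empty] at l1
  refine ge_of_tendsto' (by simpa using (((tendsto_one_div_add_atTop_nhds_zero_nat (𝕜 := ℝ)).mul_const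
    (2 * π * (ε + n) * (B * C))).const_mul (49 * μ.real univ)).add ((((l1.const_mul (n : ℝ)).const_add
      (ε * ∫ w in X, ‖m μ F β w‖)).const_mul (7 * B * C)).const_mul 49)) fun k => ?_
  set η : ℝ := 1 / (k + 1) with hη
  have η0 : 0 < η := by positivity
  have η1 : η ≤ 1 := (div_le_one (by positivity)).2 (by simp)
  obtain ⟨J, χ, x, h1, h2, h3, h4, h5⟩ := hP (η / 6) (by positivity) R
  have g : ∀ j, ∃ g, ContinuousOn g X ∧ (T μ F β X f fun z => φ z * χ j z) =
      T μ F β X g (fun z => φ z * χ j z) ∧ ∀ w ∈ X, dist w (x j) < 3 * (η / 6) →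
        ‖g w‖ ≤ η * (ε + n * (A k).indicator 1 w) := fun j => by
    have hc : HasCompactSupport fun z => φ z * χ j z :=
      .intro (isCompact_closedBall _ _) fun w hw => (zr (h3 j) φ w hw).self_of_nhds
    have d : ∀ a w, dist a (x j) < 3 * (η / 6) → dist w (x j) < 3 * (η / 6) → dist w a < η :=
      fun a w h h' => by linarith [dist_triangle_right w a (x j)]
    by_cases q : ∃ a ∈ G k, dist a (x j) < 3 * (η / 6)
    · obtain ⟨a, ha, q⟩ := q
      refine ⟨_, hf.sub (by fun_prop), Ta (f a - f' a * a) (f' a) _ (h.mul (h1 j)) hc,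
        fun w hw e => (ha w hw (d a w q e)).trans ?_⟩
      have := d a w q e
      rw [dist_eq_norm] at this
      have : 0 ≤ (A k).indicator (1 : ℂ → ℝ) w := indicator_nonneg (fun _ _ => zero_le_one) w
      nlinarith [mul_nonneg (mul_nonneg η0.le n.cast_nonneg) this]
    by_cases q' : ∃ a ∈ (⋃₀ c)ᶜ, a ∈ tsupport φ ∧ dist a (x j) < 3 * (η / 6)
    · obtain ⟨a, ha, ha', q'⟩ := q'
      refine ⟨_, hf.sub (by fun_prop), Ta (f a) 0 _ (h.mul (h1 j)) hc, fun w hw e => ?_⟩
      have := d a w q' e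
      rw [indicator_of_mem (show w ∈ A k from ⟨mem_thickening_iff.2 ⟨a, ha, this⟩, fun p => by
        obtain ⟨y, hy, hy'⟩ := mem_closure_iff.1 p _ isOpen_ball e
        exact q ⟨y, hy', hy⟩⟩), Pi.sub_apply, zero_mul, add_zero, Pi.one_apply]
      rw [dist_eq_norm] at this
      nlinarith [hr (show (⟨a, ha⟩ : ((⋃₀ c)ᶜ : Set ℂ)) ∈ ball ⟨a₀, h₀⟩ r from ts ha') w hw,
        mul_le_mul_of_nonneg_left this.le n.cast_nonneg, mul_pos η0 ε0]
    refine ⟨0, continuousOn_const, (loc _ (h.mul (h1 j)) fun a ha => by_contra fun p => q' ⟨a, p,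
      tsupport_mul_subset_left ha.1, ?_⟩).trans (by simp [T]), fun w _ _ => ?_⟩
    · exact lt_of_le_of_lt (by_contra fun e => notMem_tsupport_iff_eventuallyEq.2
        (zr (h3 j) φ a e) ha.1) (show 2 * (η / 6) < _ by linarith)
    · have : 0 ≤ (A k).indicator (1 : ℂ → ℝ) w := indicator_nonneg (fun _ _ => zero_le_one) w
      rw [Pi.zero_apply, norm_zero]
      positivity
  choose g g1 g2 g3 using g
  have o : ∀ j w, ¬dist w (x j) < 3 * (η / 6) → (fun z => φ z * χ j z) =ᶠ[𝓝 w] 0 := fun j w q =>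
    zr (h3 j) φ w fun e => q (lt_of_le_of_lt e (by linarith))
  have s1 := sumb J (fun j y => dist (F y) (x j) < 3 * (η / 6)) (integrable_const
    (η * (2 * π * (ε + n) * (B * C)))) (fun j => i1 (g1 j) (h.mul (h1 j))) (fun _ => by positivity)
    (.of_forall fun y j => ⟨fun q => by
      have p : (A k).indicator (1 : ℂ → ℝ) (F y) ≤ 1 := indicator_le_self' (fun _ _ => zero_le_one) _
      have p2 : ‖g j (F y)‖ ≤ η * (ε + n * 1) := (g3 j _ (FX y) q).trans (by gcongr)
      simp only [norm_mul, norm_real, Real.norm_of_nonneg Real.pi_pos.le, Complex.norm_ofNat]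
      calc _ ≤ 2 * π * 1 * (η * (ε + n * 1) * (B * C)) := by
            gcongr
            exacts [b1 y, (hB _ (FX y)).1, (h4 j _).1]
        _ = _ := by ring,
      fun q => by simp [(o j _ q).self_of_nhds]⟩) fun y => h5 _
  have ii := im.norm.indicator (mA k)
  have s2 := sumb J (fun j w => dist w (x j) < 3 * (η / 6)) (((im.norm.const_mul ε).add
    (ii.const_mul n)).const_mul (7 * B * C)) (fun j => i2 (g1 j) (h.mul (h1 j))) (fun w => by
      have : 0 ≤ (A k).indicator (fun w => ‖m μ F β w‖) w :=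
        indicator_nonneg (fun _ _ => norm_nonneg _) w
      rw [Pi.add_apply]
      positivity) ((ae_restrict_mem mX).mono fun w hw j => ⟨fun q => by
      have p : ‖D (fun z => φ z * χ j z) w‖ ≤ B * (C / (η / 6)) + C * B := by
        rw [D_mul h (h1 j)]
        refine (norm_add_le _ _).trans ?_
        rw [norm_mul, norm_mul]
        gcongr
        exacts [(hB w hw).1, (h4 j w).2, (h4 j w).1, (hB w hw).2]
      have p0 : 0 ≤ (A k).indicator (1 : ℂ → ℝ) w := indicator_nonneg (fun _ _ => zero_le_one) w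
      rw [norm_mul, norm_mul]
      calc _ ≤ η * (ε + n * (A k).indicator 1 w) * (B * (C / (η / 6)) + C * B) * ‖m μ F β w‖ := by
            gcongr
            exact g3 j w hw q
        _ = (6 + η) * B * C * ((ε + n * (A k).indicator 1 w) * ‖m μ F β w‖) := by field_simp
        _ ≤ 7 * B * C * ((ε + n * (A k).indicator 1 w) * ‖m μ F β w‖) := by gcongr; linarith
        _ = _ := by by_cases e : w ∈ A k <;> simp [e, add_mul],
      fun q => by simp [D_zero (o j w q)]⟩) h5
  rw [integral_const_mul, integral_add' (im.norm.const_mul ε) (ii.const_mul n), integral_const_mul,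
    integral_const_mul, integral_indicator (mA k)] at s2
  rw [integral_const, smul_eq_mul, ← mul_assoc] at s1
  rw [Ts J χ φ h h1 h2]
  simp only [g2]
  simp only [T, Finset.sum_sub_distrib]
  simpa [hη] using (norm_sub_le _ _).trans (add_le_add s1 s2)

end Pool.Agent.H.MP_dbc030_an
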